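import Pool.Agent.Run7.h204.LgmFin

open Run7.h204.Lgm

namespace Pool.Agent.Results.MP_87bea5_an.NoOddDegree

/-- Q1 answered in the affirmative: if `Q` is a real polynomial of odd degree, then
`{Q(k)}` is not a Legendre multiplier sequence. -/
theorem result (Q : Polynomial ℝ) (hQ : Odd Q.natDegree) :
    ¬ IsLegendreMultiplierSequence fun k => Q.eval (k : ℝ) :=
  main Q hQ

end Pool.Agent.Results.MP_87bea5_an.NoOddDegree
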